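import Pool.Agent.Helper66.HDLeIn

open Cardinal Pool.Agent.Helper66.HD

namespace Pool.Agent.Results.MP_7b1404_lc.LeInEquality

/-- For both `R = ≤*` and `R = ∈*` the higher dominating number `𝔡(R_{∅})` equals
`𝔡^𝔠_{𝔟(R)}`, where `𝔟(R)` is an infinite regular cardinal `≤ 𝔠`. -/
theorem result :
    ((bnum leStar).IsRegular ∧ bnum leStar ≤ 𝔠 ∧
      dnum leStar {∅} = dGen 𝔠 (bnum leStar)) ∧
    ((bnum inStar).IsRegular ∧ bnum inStar ≤ 𝔠 ∧
      dnum inStar {∅} = dGen 𝔠 (bnum inStar)) :=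
  ⟨leStar_main, inStar_main⟩

end Pool.Agent.Results.MP_7b1404_lc.LeInEquality
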