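import Pool.Agent.Helper66.HDNe

open Cardinal Pool.Agent.Helper66.HD

namespace Pool.Agent.Results.MP_7b1404_lc.NeEquality

/-- If `𝔟(≠*)`, i.e. `non(M)`, is smaller than `ℵ_{ω₁}`, then it is regular and the higher
dominating number `𝔡(≠*_{∅})` equals `𝔡^𝔠_{𝔟(≠*)}`. -/
theorem result (h : bnum neStar < ℵ_ (Ordinal.omega 1)) :
    (bnum neStar).IsRegular ∧ bnum neStar ≤ 𝔠 ∧
      dnum neStar {∅} = dGen 𝔠 (bnum neStar) :=
  neStar_main h

end Pool.Agent.Results.MP_7b1404_lc.NeEquality
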