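import Pool.Agent.HNF.Main

/-!
The higher dominating number `𝔡(≠*_{∅})` is consistently different from all the numbers `𝔡^𝔠_μ`.

The theorem is about the generic extension `W[G]` of an inner model `W` of ZFC + GCH: if the universe is
`W[G]`, then `𝔠 = ℵ_{ω₁}` and `𝔡(≠*_{∅}) < 𝔡^𝔠_μ` for all infinite cardinals `μ ≤ 𝔠`.
-/

open Cardinal Pool.Agent.Helper66.HD

namespace Pool.Agent.Results.MP_7b1404_lc.NeNegative

/-- If the universe is the generic extension `W[G]` of an inner model `W` of ZFC + GCH by the product of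
the measure algebra adding `ℵ_{ω₁}` random reals and of the forcing adding generic functions, then `𝔠 = ℵ_{ω₁}`
and `𝔡(≠*_{∅}) < 𝔡^𝔠_μ` for all infinite cardinals `μ ≤ 𝔠`. -/
theorem result {W G : Set ZFSet.{0}} (h : HNF.Extension W G) :
    (𝔠 : Cardinal.{0}) = ℵ_ (Ordinal.omega 1) ∧
      ∀ μ : Cardinal.{0}, ℵ₀ ≤ μ → μ ≤ 𝔠 → dnum neStar {∅} < dGen 𝔠 μ :=
  HNF.hnf_main h

end Pool.Agent.Results.MP_7b1404_lc.NeNegative
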